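import Pool.Agent.Q17.RR.Stm
import Pool.Agent.Q17.DC.All
import Pool.Agent.Q38.DC.DEC
import Pool.Agent.Q14.AM.DZB

/-!
# Project RR of helper17, job OUT: chains which contribute to the block of defect group `D`
-/

set_option autoImplicit false

open scoped BigOperators Classical

noncomputable section

namespace Pool.Agent.Q14.RR

open Pool.Agent.H254R3.IN hiding NN
open Pool.Agent.Y63.KR Pool.Agent.Q17.DC Pool.Agent.Q17.RR

lemma mem_cs {Γ : Type} [Group Γ] (σ : Set (Subgroup Γ)) (x : Γ) :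
    x ∈ chainStabilizer σ ↔ ∀ P ∈ σ, x ∈ Subgroup.normalizer (P : Set Γ) := by
  unfold chainStabilizer
  simp only [Subgroup.mem_iInf]

/-- induction of the block of a character of the stabiliser of a chain to the normaliser of the greatest member -/
lemma to_top (hE : S_EXI) (hT : S_TRS) {Γ : Type} [Group Γ] [Fintype Γ] {p : ℕ} [Fact p.Prime]
    {O : ValuationSubring ℂ} (hp : (p : ℂ) ∈ O.nonunits) (P : Subgroup Γ) :
    ∀ (n : ℕ) (σ : Set (Subgroup Γ)), σ.ncard = n → Ch p ⊤ ⊥ σ → P ∈ σ → (∀ Q ∈ σ, Q ≤ P) →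
      ∀ θ : chainStabilizer σ → ℂ, IsIrr θ → ∃ (N : Subgroup Γ) (θ' : N → ℂ),
        (∀ x, x ∈ N ↔ x ∈ Subgroup.normalizer (P : Set Γ)) ∧ IsIrr θ' ∧
        ∀ x : Γ, indc ⊤ N θ' x - indc ⊤ (chainStabilizer σ) θ x ∈ O.nonunits := by
  intro n
  induction n with
  | zero =>
    intro σ hσ _ hP
    have h1 : σ = ∅ := (Set.ncard_eq_zero (Set.toFinite σ)).1 hσ
    rw [h1] at hP
    exact absurd hP (Set.notMem_empty P)
  | succ n ih =>
    intro σ hσ hch hP hle θ hθ
    have hne : σ.Nonempty := ⟨P, hP⟩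
    obtain ⟨D, hD⟩ := (Set.toFinite σ).exists_minimal hne
    have hDσ : D ∈ σ := hD.prop
    have hDle : ∀ Q ∈ σ, D ≤ Q := by
      intro Q hQ
      by_cases hQD : D = Q
      · exact hQD.le
      · rcases hch.chain hDσ hQ hQD with h | h
        · exact h
        · exact hD.le_of_le hQ h
    by_cases hDP : D = P
    · refine ⟨chainStabilizer σ, θ, fun x => ?_, hθ, fun x => ?_⟩
      · rw [mem_cs]
        constructor
        · intro h
          exact h P hP
        · intro h Q hQ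
          have : Q = P := le_antisymm (hle Q hQ) (hDP ▸ hDle Q hQ)
          rw [this]
          exact h
      · rw [sub_self]
        exact O.nonunits.zero_mem
    · have hτ : Ch p ⊤ ⊥ (σ \ {D}) :=
        { chain := hch.chain.mono Set.sdiff_subset
          isp := fun Q hQ => hch.isp Q hQ.1
          le := fun Q hQ => hch.le Q hQ.1
          lt := fun Q hQ => hch.lt Q hQ.1 }
      have hcard : (σ \ {D}).ncard = n := by
        rw [Set.ncard_sdiff_singleton_of_mem hDσ, hσ, Nat.add_sub_cancel]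
      have hDN : D ≤ chainStabilizer (σ \ {D}) := by
        intro d hd
        rw [mem_cs]
        exact fun Q hQ => Subgroup.le_normalizer (hDle Q hQ.1 hd)
      have hmem : ∀ x, x ∈ chainStabilizer σ ↔ x ∈ chainStabilizer (σ \ {D}) ∧
          x ∈ Subgroup.normalizer (D : Set Γ) := by
        intro x
        rw [mem_cs, mem_cs]
        constructor
        · intro h2
          exact ⟨fun Q hQ => h2 Q hQ.1, h2 D hDσ⟩
        · rintro ⟨h2, h3⟩ Q hQ
          by_cases hQD : Q = D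
          · rw [hQD]
            exact h3
          · exact h2 Q ⟨hQ, hQD⟩
      obtain ⟨B', hB', hB'c⟩ := hE Γ p O hp (chainStabilizer (σ \ {D})) (chainStabilizer σ) D hDN
        (hch.isp D hDσ) hmem θ hθ
      obtain ⟨χ', hχ'⟩ := hB'.nonempty
      have hχi := IsBlock.irr hB' χ' hχ'
      obtain ⟨N, θ', hN, hθ', hc⟩ := ih (σ \ {D}) hcard hτ ⟨hP, fun h => hDP h.symm⟩
        (fun Q hQ => hle Q hQ.1) χ' hχi
      refine ⟨N, θ', hN, hθ', fun x => ?_⟩
      have h1 := hT Γ O ⊤ (chainStabilizer (σ \ {D})) (chainStabilizer σ) le_top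
        (fun y hy => ((hmem y).1 hy).1) χ' hχi θ hθ (hB'c χ' hχ') x
      have h2 : indc ⊤ N θ' x - indc ⊤ (chainStabilizer σ) θ x =
          (indc ⊤ N θ' x - indc ⊤ (chainStabilizer (σ \ {D})) χ' x) +
          (indc ⊤ (chainStabilizer (σ \ {D})) χ' x - indc ⊤ (chainStabilizer σ) θ x) := by ring
      rw [h2]
      exact O.nonunits.add_mem (hc x) h1

lemma indc_top {Γ : Type} [Group Γ] (L : Subgroup Γ) (θ : L → ℂ) (x : Γ) :
    indc ⊤ L θ x = ∑ᶠ y : {y : L // IsConj x (y : Γ)}, θ y / θ 1 := by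
  unfold indc
  let e : {y : L // ∃ g ∈ (⊤ : Subgroup Γ), g * x * g⁻¹ = y} ≃ {y : L // IsConj x (y : Γ)} :=
    Equiv.subtypeEquivRight fun y => by
      rw [isConj_iff]
      constructor
      · rintro ⟨g, _, hg⟩
        exact ⟨g, hg⟩
      · rintro ⟨g, hg⟩
        exact ⟨g, Subgroup.mem_top g, hg⟩
  exact finsum_comp_equiv e (f := fun y : {y : L // IsConj x (y : Γ)} => θ y / θ 1)

/-- a block induced from a character of the normaliser of `P` has a coefficient which is a unit, at an element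
centralising `P` -/
lemma exists_coeff {Γ : Type} [Group Γ] [Fintype Γ] {p : ℕ} [Fact p.Prime]
    {O : ValuationSubring ℂ} (hp : (p : ℂ) ∈ O.nonunits) {B : Set (Γ → ℂ)} (hB : IsBlock O B)
    (P N : Subgroup Γ) (hP : IsPGroup p P) (hN : ∀ x, x ∈ N ↔ x ∈ Subgroup.normalizer (P : Set Γ))
    (φ : N → ℂ) (hφ : IsIrr φ)
    (hind : ∀ χ ∈ B, ∀ x : Γ, omega χ x - ∑ᶠ y : {y : N // IsConj x (y : Γ)}, φ y / φ 1 ∈ O.nonunits) :
    ∃ y : Γ, blockCoeff B y ∉ O.nonunits ∧ ∀ r ∈ P, Commute r y := by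
  obtain ⟨θ, hθB⟩ := hB.nonempty
  have hθ := hB.irr θ hθB
  have hcl := blockCoeff_cl hB.irr
  have hbO := blockCoeff_mem hB
  have hcN : IsCl (fun y : N => blockCoeff B (y : Γ)) := fun g y => hcl (g : Γ) (y : Γ)
  have hcNO : ∀ y : N, blockCoeff B (y : Γ) ∈ O := fun y => hbO _
  have h1 := Om_blockCoeff hB.irr hθ
  rw [if_pos hθB] at h1
  have h2 := (red_Om hθ hcl hbO).2
  rw [h1, red_one] at h2
  have h3 := (red_Om (O := O) hφ hcN hcNO).2
  have h4 : red O (Om (fun y : N => blockCoeff B (y : Γ)) φ) = 1 := by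
    rw [h2]
    have e1 : Om (fun y : N => blockCoeff B (y : Γ)) φ =
        ∑ K : ConjClasses Γ, blockCoeff B (rep K) *
          ∑ᶠ y : {y : N // IsConj (rep K) (y : Γ)}, φ y / φ 1 := by
      unfold Om
      rw [Finset.sum_div]
      rw [← Finset.sum_fiberwise Finset.univ (fun y : N => ConjClasses.mk (y : Γ))]
      refine Finset.sum_congr rfl fun K _ => ?_
      rw [finsum_eq_sum_of_fintype, Finset.mul_sum]
      rw [Finset.sum_subtype (Finset.univ.filter (fun y : N => ConjClasses.mk (y : Γ) = K))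
        (p := fun y : N => IsConj (rep K) (y : Γ)) (by
          intro y
          rw [Finset.mem_filter, mk_eq_iff]
          exact ⟨fun h => h.2, fun h => ⟨Finset.mem_univ _, h⟩⟩)]
      refine Finset.sum_congr rfl fun y _ => ?_
      rw [hcl.isConj y.2]
      ring
    have hm : ∀ K : ConjClasses Γ,
        (∑ᶠ y : {y : N // IsConj (rep K) (y : Γ)}, φ y / φ 1) ∈ O ∧
        red O (omega θ (rep K)) = red O (∑ᶠ y : {y : N // IsConj (rep K) (y : Γ)}, φ y / φ 1) :=
      fun K => red_congr (hθ.omega_mem O _) (hind θ hθB (rep K))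
    rw [e1, red_sum _ _ fun K _ => O.mul_mem _ _ (hbO _) (hm K).1]
    refine Finset.sum_congr rfl fun K _ => ?_
    rw [red_mul (hbO _) (hm K).1, (hm K).2]
  rw [h3] at h4
  have h5 : ∃ K : ConjClasses N, red O (blockCoeff B ((rep K : N) : Γ)) *
      red O (omega φ (rep K)) ≠ 0 := by
    by_contra hcon
    push Not at hcon
    rw [Finset.sum_eq_zero fun K _ => hcon K] at h4
    exact zero_ne_one h4
  obtain ⟨K, hK⟩ := h5
  have hK1 := left_ne_zero_of_mul hK
  have hK2 := right_ne_zero_of_mul hK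
  have hPN : P ≤ N := fun x hx => (hN x).2 (Subgroup.le_normalizer hx)
  set D : Subgroup N := P.subgroupOf N with hD
  haveI hDn : D.Normal := by
    refine ⟨fun n hn g => ?_⟩
    rw [hD, Subgroup.mem_subgroupOf] at hn ⊢
    have h6 := (hN (g : Γ)).1 g.2
    rw [Subgroup.mem_normalizer_iff] at h6
    exact (h6 (n : Γ)).1 hn
  have hDp : IsPGroup p D := hP.of_equiv (Subgroup.subgroupOfEquivOfLe hPN).symm
  have hxc : rep K ∈ Subgroup.centralizer (D : Set N) := by
    by_contra hx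
    exact hK2 (lam_zero hp hDp hφ hx)
  refine ⟨((rep K : N) : Γ), fun h => hK1 (red_eq_zero h), ?_⟩
  intro q hq
  have h6 := Subgroup.mem_centralizer_iff.mp hxc ⟨q, hPN hq⟩ hq
  exact congrArg (fun z : N => (z : Γ)) h6

theorem t_OUT (hE : S_EXI) (hT : S_TRS) (hM : S_MMX) : S_OUT := by
  intro Γ _ _ p _ O hp B D hB hD σ hσ hψ P hP
  obtain ⟨ψ, hψi, hψ⟩ := hψ
  -- the greatest member
  obtain ⟨Q, hQ⟩ := (Set.toFinite σ).exists_maximal ⟨P, hP⟩
  have hQσ : Q ∈ σ := hQ.prop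
  have hle : ∀ R ∈ σ, R ≤ Q := by
    intro R hR
    by_cases hRQ : R = Q
    · exact hRQ.le
    · rcases hσ.chain hR hQσ hRQ with h | h
      · exact h
      · exact hQ.le_of_ge hR h
  obtain ⟨N, θ, hN, hθ, hc⟩ := to_top hE hT hp Q _ σ rfl hσ hQσ hle ψ hψi
  obtain ⟨y, hy, hcy⟩ := exists_coeff hp hB Q N (hσ.isp Q hQσ) hN θ hθ (by
    intro χ hχ x
    have h1 := hψ χ hχ x (Set.mem_univ x)
    have h2 := hc x
    rw [indc_top, indc_top] at h2
    have h3 := O.nonunits.sub_mem h1 h2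
    have h4 : omega χ x - ∑ᶠ y : {y : chainStabilizer σ // IsConj x (y : Γ)}, ψ y / ψ 1 -
        (∑ᶠ y : {y : N // IsConj x (y : Γ)}, θ y / θ 1 -
          ∑ᶠ y : {y : chainStabilizer σ // IsConj x (y : Γ)}, ψ y / ψ 1) =
        omega χ x - ∑ᶠ y : {y : N // IsConj x (y : Γ)}, θ y / θ 1 := by ring
    rw [h4] at h3
    exact h3)
  obtain ⟨g, hg⟩ := ((hM Γ p O hp B hB).2 D hD).1 y hy Q (hσ.isp Q hQσ) hcy
  exact ⟨g, fun x hx => hg x (hle P hP hx)⟩

end Pool.Agent.Q14.RR
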